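import Pool.Agent.X98.BQ.Final

/-!
# MP_3e0609_an, Q1 (disproved): `P_θ 𝒜` does not have empty interior

For every mean-free `θ* ∈ L²(𝕋²)` and every `ε > 0`, every mean-free `θ` with `‖θ - θ*‖ < ε` is the
temperature component of a point of the weak sigma-attractor (the set of values at time `0` of the
bounded solutions on `ℝ`): every point of `L²` is an interior point of `P_θ 𝒜`.

The definitions are in `Pool/Agent/X98/BQ/Defs.lean`; functions on the torus are given by their Fourier
coefficients.
-/

set_option autoImplicit false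

namespace Pool.Agent.Results.MP_3e0609_an.NonemptyInterior

open Pool.Agent.X98.BQ.Sys

/-- Every ball of `L²` (mean-free functions) is contained in `P_θ 𝒜`. -/
theorem result (L ν g : ℝ) (hL : 0 < L) (hν : 0 < ν) (hg : 0 < g) (θ' : ℤ × ℤ → ℂ)
    (_hθ' : IsField θ') (ε : ℝ) (_hε : 0 < ε) :
    {θ | IsField θ ∧ normSq (fun k => θ k - θ' k) < ε ^ 2} ⊆
      {θ | ∃ u, (u, θ) ∈ attractor L ν g} := by
  rintro θ ⟨hθ, -⟩
  rw [Pool.Agent.X98.BQ.projection_eq hL hν hg]
  exact hθ

end Pool.Agent.Results.MP_3e0609_an.NonemptyInterior
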